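import Pool.Agent.WIR.StmtsB

/-!
# WIR row DCL (large triangles)
-/

set_option autoImplicit false

open Filter Topology

namespace Pool.Agent.WIR.H43

open scoped BigOperators
open Pool.Agent.WIR

theorem Kh_nonneg {B l : ℕ} {f : ℕ → ℝ} (h : ∀ x, 0 ≤ f x) : 0 ≤ Kh B f l := by
  unfold Kh
  refine Finset.sum_nonneg fun x _ => mul_nonneg (by positivity) (h x)

theorem Gh_nonneg {B l : ℕ} {f : ℕ → ℝ} (h : ∀ x, 0 ≤ f x) : 0 ≤ Gh B f l := by
  unfold Gh
  refine Finset.sum_nonneg fun x _ => mul_nonneg (by positivity) (h x)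

theorem Kh_le {B l : ℕ} {f g : ℕ → ℝ} {Z : ℝ} (h : ∀ x, f x ≤ g x * Z) :
    Kh B f l ≤ Kh B g l * Z := by
  unfold Kh
  rw [Finset.sum_mul]
  refine Finset.sum_le_sum fun x _ => ?_
  rw [mul_assoc _ (g x) Z]
  exact mul_le_mul_of_nonneg_left (h x) (by positivity)

theorem Gh_le {B l : ℕ} {f g : ℕ → ℝ} {Z : ℝ} (h : ∀ x, f x ≤ g x * Z) :
    Gh B f l ≤ Gh B g l * Z := by
  unfold Gh
  rw [Finset.sum_mul]
  refine Finset.sum_le_sum fun x _ => ?_
  rw [mul_assoc _ (g x) Z]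
  exact mul_le_mul_of_nonneg_left (h x) (by positivity)

theorem FPE_le {B s R0 l : ℕ} {V W : ℕ → ℕ → ℝ} {Z : ℝ} (hZ : 0 ≤ Z)
    (hW : ∀ k x, 0 ≤ W k x)
    (h : ∀ r, r < R0 → r ≤ s → ∀ x, V (r / 2 + 1) x ≤ W (r / 2 + 1) x * Z) :
    FPE B s R0 V l ≤ FPE B s (s + 1) W l * Z := by
  unfold FPE
  rw [Finset.sum_mul]
  refine Finset.sum_le_sum fun r hr => ?_
  rw [Finset.mem_range] at hr
  rw [if_pos hr]
  have hc : (0 : ℝ) ≤ (s.choose r : ℝ) * (1 / 2 : ℝ) ^ s := by positivity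
  have key : (if r < R0 then (if Even r then Kh B (V (r / 2 + 1)) (l + s)
      else Gh B (V (r / 2 + 1)) (l + s)) else 0)
      ≤ (if Even r then Kh B (W (r / 2 + 1)) (l + s) else Gh B (W (r / 2 + 1)) (l + s)) * Z := by
   by_cases hR : r < R0
   · rw [if_pos hR]
     by_cases he : Even r
     · rw [if_pos he, if_pos he]
       exact Kh_le (h r hR (by omega))
     · rw [if_neg he, if_neg he]
       exact Gh_le (h r hR (by omega))
   · rw [if_neg hR]
     refine mul_nonneg ?_ hZ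
     by_cases he : Even r
     · rw [if_pos he]; exact Kh_nonneg (hW _)
     · rw [if_neg he]; exact Gh_nonneg (hW _)
  have h2 := mul_le_mul_of_nonneg_left key hc
  linarith

theorem exp_bound (A : ℕ) {c : ℝ} (hc : 0 < c) : ∃ N : ℕ, ∀ m : ℕ, N ≤ m →
    Real.exp (-(c * m)) ≤ 1 / (2 * ((m : ℝ) + 1) ^ A) := by
  have h1 : Tendsto (fun x : ℝ => x ^ A * Real.exp (-x)) atTop (𝓝 0) :=
    Real.tendsto_pow_mul_exp_neg_atTop_nhds_zero A
  have h2 : Tendsto (fun m : ℕ => c * ((m : ℝ) + 1)) atTop atTop := by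
    refine Tendsto.const_mul_atTop hc ?_
    exact tendsto_atTop_add_const_right _ _ tendsto_natCast_atTop_atTop
  have h3 := h1.comp h2
  have h4 : (0 : ℝ) < c ^ A / (2 * Real.exp c) := by positivity
  have h5 := (h3.eventually (gt_mem_nhds h4)).exists_forall_of_atTop
  obtain ⟨N, hN⟩ := h5
  refine ⟨N, fun m hm => ?_⟩
  have h6 := hN m hm
  simp only [Function.comp] at h6
  have hpos : (0 : ℝ) < (m : ℝ) + 1 := by positivity
  have h7 : Real.exp (-(c * ((m : ℝ) + 1))) = Real.exp (-(c * m)) / Real.exp c := by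
    rw [← Real.exp_sub]; congr 1; ring
  rw [h7, mul_pow] at h6
  rw [le_div_iff₀ (by positivity)]
  have h8 : c ^ A * ((m : ℝ) + 1) ^ A * (Real.exp (-(c * m)) / Real.exp c)
      = (c ^ A / (2 * Real.exp c)) * (Real.exp (-(c * m)) * (2 * ((m : ℝ) + 1) ^ A)) := by
    field_simp
  rw [h8] at h6
  have h9 : (c ^ A / (2 * Real.exp c)) * (Real.exp (-(c * m)) * (2 * ((m : ℝ) + 1) ^ A))
      < (c ^ A / (2 * Real.exp c)) * 1 := by rw [mul_one]; exact h6
  exact (lt_of_mul_lt_mul_left h9 h4.le).le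

theorem dcl (hLAM : LamStmt) (_hMON : MonStmt) (hFPS : FpsStmt) (hHOE : HoeStmt)
    (hDVB : DvbStmt) (hWHT : WhtStmt) : DclStmt := by
  intro d A hd hd1
  obtain ⟨P, s0, hP⟩ := hWHT d (1 / (4 * 60 ^ A)) hd hd1 (by positivity)
  set κ : ℝ := d / (16 * (A + 1)) with hκ
  have hκ0 : 0 < κ := by rw [hκ]; positivity
  obtain ⟨N, hN⟩ := exp_bound A (c := κ / 50) (by positivity)
  obtain ⟨M, hM⟩ := exists_nat_ge ((s0 : ℝ) / κ)
  refine ⟨max (100 + 100 * P) (max N M), by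
    have := le_max_left (100 + 100 * P) (max N M); omega, ?_⟩
  intro h b Q t B j l m C hT hm hjm hC hIH q hq hTri hs
  have hm1 : 100 + 100 * P ≤ m := le_trans (le_max_left _ _) hm
  have hm2 : N ≤ m := le_trans (le_trans (le_max_left _ _) (le_max_right _ _)) hm
  have hm3 : M ≤ m := le_trans (le_trans (le_max_right _ _) (le_max_right _ _)) hm
  obtain ⟨hq1, hq2, hq3⟩ := hTri
  set s : ℕ := q.2 - l with hsdef
  have hqs : q.2 = l + s := by omega
  have hs3 : 3 ≤ s := by omega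
  have hs0 : s0 ≤ s := by
    have h1 : (s0 : ℝ) / κ ≤ m := le_trans hM (by exact_mod_cast hm3)
    rw [div_le_iff₀ hκ0] at h1
    have h2 : (s0 : ℝ) < s := by nlinarith
    have h3 : s0 < s := by exact_mod_cast h2
    omega
  -- (1)
  obtain ⟨w, hw1, hw2⟩ := hLAM.2.2 s hs3
  have hTw : Tri q (t q) (j + 1 + w) q.2 := by
    refine ⟨by omega, le_refl _, ?_⟩
    have e1 : (q.2 : ℝ) = l + s := by rw [hqs]; push_cast; ring
    have e2 : (q.2 : ℝ) - ((l + 3 : ℕ) : ℝ) = (s : ℝ) - 3 := by rw [e1]; push_cast; ring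
    rw [e2] at hq3
    push_cast at hq3 ⊢
    have e3 : lam * ((j : ℝ) + 1 + w - q.1) = lam * ((j : ℝ) + 1 - q.1) + lam * w := by ring
    rw [e3]
    linarith
  have hwm : w + 1 ≤ m := by
    have := (hT.sub q hq _ _ hTw).2
    omega
  have h31 : 31 * s ≤ 100 * m + 95 := by omega
  -- (2)
  set R0 : ℕ := (3 * s + 4) / 5 with hR0
  have hR1 : 3 * s ≤ 5 * R0 := by omega
  have hR2 : 5 * R0 ≤ 3 * s + 4 := by omega
  have hk : ∀ k, 2 * k < R0 → m + 1 ≤ 60 * (m - k - P) ∧ k + 1 + P ≤ m := by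
    intro k hk
    have h1 : 10 * k + 1 ≤ 3 * s := by omega
    have h2 : 310 * k ≤ 300 * m + 254 := by omega
    constructor <;> omega
  obtain ⟨hD1, hD2, hD3, hD4⟩ := hDVB B d b hd.le hd1
  have hfps := hFPS B s R0 (fun k x => Dv B d b (m - k) (j + k) x) l
    (fun k x hx => hD2 _ _ _ hx) (fun k x => (hD1 _ _ _).2) (by
      intro k x hk1 _
      have hkm := (hk k hk1).2
      have e : m - k = (m - (k + 1)) + 1 := by omega
      rw [e]
      exact hD3 (m - (k + 1)) (j + k) x)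
  simp only [Nat.sub_zero, Nat.add_zero] at hfps
  -- (weight)
  have hm0 : (0 : ℝ) < (m : ℝ) + 1 := by positivity
  have hweight : ∑ r ∈ (Finset.range (s + 1)).filter (fun r => R0 ≤ r),
      (s.choose r : ℝ) * (1 / 2 : ℝ) ^ s ≤ 1 / (2 * ((m : ℝ) + 1) ^ A) := by
    have hsR : (0 : ℝ) < s := by exact_mod_cast (by omega : 0 < s)
    have h1 := (hHOE s ((s : ℝ) / 5) (by omega) (by positivity)).1
    have h2 : ((s : ℝ) / 5) ^ 2 / (2 * s) = (s : ℝ) / 50 := by field_simp; norm_num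
    rw [h2] at h1
    have h3 : ∑ r ∈ (Finset.range (s + 1)).filter (fun r => R0 ≤ r), (s.choose r : ℝ)
        ≤ ∑ r ∈ (Finset.range (s + 1)).filter (fun r : ℕ => (s : ℝ) / 5 ≤ 2 * (r : ℝ) - s),
          (s.choose r : ℝ) := by
      refine Finset.sum_le_sum_of_subset_of_nonneg ?_ (fun _ _ _ => Nat.cast_nonneg _)
      intro r hr
      rw [Finset.mem_filter] at hr ⊢
      refine ⟨hr.1, ?_⟩
      have h4 : 3 * s ≤ 5 * r := by omega
      have h5 : (3 : ℝ) * s ≤ 5 * r := by exact_mod_cast h4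
      linarith
    rw [← Finset.sum_mul]
    have h4 : (∑ r ∈ (Finset.range (s + 1)).filter (fun r => R0 ≤ r), (s.choose r : ℝ))
        * (1 / 2 : ℝ) ^ s ≤ (2 ^ s * Real.exp (-((s : ℝ) / 50))) * (1 / 2 : ℝ) ^ s :=
      mul_le_mul_of_nonneg_right (le_trans h3 h1) (by positivity)
    have h5 : (2 ^ s * Real.exp (-((s : ℝ) / 50))) * (1 / 2 : ℝ) ^ s
        = Real.exp (-((s : ℝ) / 50)) := by
      rw [one_div, inv_pow]; field_simp
    rw [h5] at h4
    refine le_trans h4 (le_trans ?_ (hN m hm2))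
    refine Real.exp_le_exp.mpr ?_
    have : κ / 50 * m ≤ (s : ℝ) / 50 := by
      have := hs.le
      have e : κ / 50 * m = (κ * m) / 50 := by ring
      rw [e]
      exact div_le_div_of_nonneg_right this (by norm_num)
    linarith
  -- (3)
  set Z : ℝ := C * 60 ^ A / ((m : ℝ) + 1) ^ A with hZ
  have hZ0 : 0 ≤ Z := by rw [hZ]; positivity
  have hFPEle : FPE B s R0 (fun k x => Dv B d b (m - k) (j + k) x) l
      ≤ FPE B s (s + 1) (fun k x => Dv B d b P (j + k) x) l * Z := by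
    refine FPE_le hZ0 (fun k x => (hD1 _ _ _).1) ?_
    intro r hr _ x
    have h2k : 2 * (r / 2) < R0 := by omega
    obtain ⟨hk1, hk2⟩ := hk (r / 2) h2k
    set k := r / 2 with hkdef
    have e : m - (k + 1) = P + (m - (k + 1) - P) := by omega
    rw [e]
    refine hD4 P (m - (k + 1) - P) (j + (k + 1)) Z hZ0 ?_ x
    intro x'
    have h1 := hIH (m - (k + 1) - P) x' (by omega)
    have e2 : j + (m - (m - (k + 1) - P)) = j + (k + 1) + P := by omega
    rw [e2] at h1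
    refine le_trans h1 ?_
    have e3 : ((m - (k + 1) - P : ℕ) : ℝ) + 1 = ((m - k - P : ℕ) : ℝ) := by
      have : m - k - P = m - (k + 1) - P + 1 := by omega
      rw [this]; push_cast; ring
    rw [e3, hZ]
    have hk1' : ((m : ℝ) + 1) ≤ 60 * ((m - k - P : ℕ) : ℝ) := by exact_mod_cast hk1
    have hpos : (0 : ℝ) < ((m - k - P : ℕ) : ℝ) := by linarith
    rw [div_le_div_iff₀ (by positivity) (by positivity)]
    have h2 : ((m : ℝ) + 1) ^ A ≤ (60 * ((m - k - P : ℕ) : ℝ)) ^ A :=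
      pow_le_pow_left₀ hm0.le hk1' A
    rw [mul_pow] at h2
    have h3 : C * ((m : ℝ) + 1) ^ A ≤ C * (60 ^ A * ((m - k - P : ℕ) : ℝ) ^ A) :=
      mul_le_mul_of_nonneg_left h2 (by linarith)
    linarith
  have hw' := hP h b Q t B hT q j l hq ⟨hq1, hq2, hq3⟩ hs0
  have h1 : FPE B s R0 (fun k x => Dv B d b (m - k) (j + k) x) l
      ≤ (1 / (4 * 60 ^ A)) * Z := le_trans hFPEle (mul_le_mul_of_nonneg_right hw' hZ0)
  have h2 : (1 / (4 * 60 ^ A)) * Z = C / ((m : ℝ) + 1) ^ A / 4 := by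
    rw [hZ]; field_simp
  rw [h2] at h1
  have h3 : 1 / (2 * ((m : ℝ) + 1) ^ A) ≤ C / ((m : ℝ) + 1) ^ A / 2 := by
    rw [one_div, mul_inv, div_div, div_eq_mul_inv, mul_inv]
    have : (0 : ℝ) < (((m : ℝ) + 1) ^ A)⁻¹ := by positivity
    nlinarith
  have h4 : 0 ≤ C / ((m : ℝ) + 1) ^ A := by positivity
  linarith

end Pool.Agent.WIR.H43
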